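import Pool.Agent.FSH.Defs
import Pool.Agent.FSH.Dbl

/-!
# Flat weighted line arrangements have few double points
-/

namespace Pool.Agent.Results.MP_aeb308_gt.DoublePoints

open FSH

open Classical in
/-- Let `A` be a finite set of lines of the complex projective plane with flat weights `a`, such
that every line has weight less than `1` and the lines through any point have total weight less
than `2`.  If all weights are at most `α`, then the sum `S` of `a H * a H'` over the ordered pairs
of distinct lines which meet in a double point satisfies `S² ≤ 3 α (9 + S)`. -/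
theorem result (A : Finset (Submodule ℂ (Fin 3 → ℂ))) (hA : IsLines A)
    (a : Submodule ℂ (Fin 3 → ℂ) → ℝ) (ha : FlatWeights A a)
    (h2 : ∀ p ∈ points A, weightAt A a p < 2) (h1 : ∀ H ∈ A, a H < 1)
    (α : ℝ) (hα : ∀ H ∈ A, a H ≤ α) :
    (∑ q ∈ A.offDiag.filter (fun q => (through A (q.1 ⊓ q.2)).card = 2), a q.1 * a q.2) ^ 2 ≤
      3 * α * (9 + ∑ q ∈ A.offDiag.filter (fun q => (through A (q.1 ⊓ q.2)).card = 2),
        a q.1 * a q.2) :=
  double_weights_main hA a ha h2 α h1 hα

end Pool.Agent.Results.MP_aeb308_gt.DoublePoints
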