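import Pool.Agent.FSH.Defs
import Pool.Agent.FSH.Main

/-!
# Flat weighted line arrangements with few cone angles and no heavy points

`FSH.FlatWeights A a`: the weights `a H` are positive, have sum `3`, and the local numbers
`c_p` (product of the two weights at a double point, a quarter of the square of the total weight at
a point of multiplicity at least three) have sum `3`.
-/

namespace Pool.Agent.Results.MP_aeb308_gt.FewConeAngles

open FSH

open Classical in
/-- Let `A` be a finite set of lines of the complex projective plane with flat weights `a` taking
`M` values, and suppose that the total weight of the lines through any point is at most `η`.  Then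
the sum of `a H * a H'` over the ordered pairs of distinct lines which meet in a double or a triple
point is at most `9 (1 + 3 M³) (14 η)^(1/25)`. -/
theorem result (A : Finset (Submodule ℂ (Fin 3 → ℂ))) (hA : IsLines A)
    (a : Submodule ℂ (Fin 3 → ℂ) → ℝ) (ha : FlatWeights A a) (η : ℝ)
    (hη : ∀ p ∈ points A, weightAt A a p ≤ η) :
    ∑ q ∈ A.offDiag.filter (fun q => (through A (q.1 ⊓ q.2)).card ≤ 3), a q.1 * a q.2 ≤
      9 * (1 + 3 * ((A.image a).card : ℝ) ^ 3) * (14 * η) ^ ((1 : ℝ) / 25) :=
  weights_main hA a ha η hη

end Pool.Agent.Results.MP_aeb308_gt.FewConeAngles
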