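import Pool.Agent.FSH.Defs
import Pool.Agent.FSH.Main

/-!
# Long Hirzebruch arrangements without large points consist of quadruple points

A line of the complex projective plane is a two-dimensional subspace of `ℂ³`, a point a
one-dimensional one (`FSH.IsLines`).  `FSH.through A p` is the set of lines of `A` through `p`,
`FSH.points A` the set of multiple points of `A`, and `FSH.Hirzebruch A` says that every line of `A`
carries exactly `|A| / 3 + 1` multiple points.
-/

namespace Pool.Agent.Results.MP_aeb308_gt.QuadruplePoints

open FSH

open Classical in
/-- Let `A` be a finite set of lines of the complex projective plane with Hirzebruch's property, and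
suppose that no point lies on more than `η |A|` lines of `A`.  Then the number of ordered pairs of
distinct lines of `A` whose intersection point does not lie on exactly four lines of `A` is at most
`12 (40 η)^(1/25) |A|²`. -/
theorem result (A : Finset (Submodule ℂ (Fin 3 → ℂ))) (hA : IsLines A) (hH : Hirzebruch A) (η : ℝ)
    (hη : ∀ p ∈ points A, ((through A p).card : ℝ) ≤ η * A.card) :
    ((A.offDiag.filter fun q => (through A (q.1 ⊓ q.2)).card ≠ 4).card : ℝ) ≤
      12 * (40 * η) ^ ((1 : ℝ) / 25) * (A.card : ℝ) ^ 2 :=
  quadruple_main hA hH η hη

end Pool.Agent.Results.MP_aeb308_gt.QuadruplePoints
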